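import Pool.Agent.helper76.FP.Spec

/-!
# Row fp:IDG: the finite index set with permutations, for an index type
-/

set_option autoImplicit false

namespace Pool.Agent.FP

open Finset

theorem IDG_large (N v : ℕ) [NeZero N] : #{x : ZMod N | N ≤ x.val + v} ≤ v := by
  classical
  have hinj : Function.Injective (fun x : ZMod N => N - 1 - x.val) := by
    intro x y hxy
    have hx := ZMod.val_lt x
    have hy := ZMod.val_lt y
    apply ZMod.val_injective N
    simp only at hxy
    omega
  have h1 : #{x : ZMod N | N ≤ x.val + v} = #(({x : ZMod N | N ≤ x.val + v} : Finset (ZMod N)).image (fun x : ZMod N => N - 1 - x.val)) := by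
    rw [card_image_of_injective _ hinj]
  rw [h1]
  have h2 : ({x : ZMod N | N ≤ x.val + v} : Finset (ZMod N)).image (fun x : ZMod N => N - 1 - x.val) ⊆ range v := by
    intro y hy
    rw [mem_image] at hy
    obtain ⟨x, hx, rfl⟩ := hy
    rw [mem_filter] at hx
    have hx' := ZMod.val_lt x
    have := hx.2
    rw [mem_range]
    omega
  calc #(({x : ZMod N | N ≤ x.val + v} : Finset (ZMod N)).image (fun x : ZMod N => N - 1 - x.val)) ≤ #(range v) := card_le_card h2
    _ = v := card_range v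

/-- fibres of a coordinate -/
theorem IDG_cnt (ι : Type) [Fintype ι] [DecidableEq ι] (N : ℕ) [NeZero N] (i : ι) (S : Finset (ZMod N)) :
    #{f : ι → ZMod N | f i ∈ S} * N = #S * Fintype.card (ι → ZMod N) := by
  classical
  have h1 : ({f : ι → ZMod N | f i ∈ S} : Finset (ι → ZMod N)) = (S ×ˢ (univ : Finset ({j // j ≠ i} → ZMod N))).map (Equiv.funSplitAt i (ZMod N)).symm.toEmbedding := by
    ext f
    rw [mem_filter, mem_map]
    constructor
    · rintro ⟨-, hf⟩
      exact ⟨Equiv.funSplitAt i (ZMod N) f, mem_product.2 ⟨hf, mem_univ _⟩, (Equiv.funSplitAt i (ZMod N)).symm_apply_apply f⟩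
    · rintro ⟨y, hy, rfl⟩
      refine ⟨mem_univ _, ?_⟩
      have h2 : ((Equiv.funSplitAt i (ZMod N)) ((Equiv.funSplitAt i (ZMod N)).symm y)).1 = y.1 := by rw [Equiv.apply_symm_apply]
      have h3 : ((Equiv.funSplitAt i (ZMod N)) ((Equiv.funSplitAt i (ZMod N)).symm y)).1 = ((Equiv.funSplitAt i (ZMod N)).symm y) i := rfl
      rw [Equiv.coe_toEmbedding, ← h3, h2]
      exact (mem_product.1 hy).1
  have h2 : Fintype.card (ι → ZMod N) = N * Fintype.card ({j // j ≠ i} → ZMod N) := by
    rw [Fintype.card_congr (Equiv.funSplitAt i (ZMod N)), Fintype.card_prod, ZMod.card]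
  rw [h1, card_map, card_product, h2, card_univ]
  ring

theorem IDG : IDG_stmt := by
  classical
  intro ι _ s η hη hs
  -- the primes
  set PP : Finset ℕ := (univ : Finset ι).biUnion fun i => (s i).primeFactors with hPP
  set M : ℕ := ∑ i, s i with hM
  obtain ⟨N0, hN0⟩ := exists_nat_gt (((#PP * M + 1 : ℕ) : ℝ) / η)
  set N : ℕ := N0 + 2 with hN
  have hNZ : NeZero N := ⟨by omega⟩
  let W := (↥PP) → ZMod N
  let K := (ι × W) → ZMod N
  let T := W × K
  let sg : (ι × W) → K := fun z => Pi.single z (1 : ZMod N)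
  let dd : ι → W := fun i p => (((s i).factorization p : ℕ) : ZMod N)
  let gg : ι → Equiv.Perm T := fun i => Equiv.prodShear (Equiv.addRight (dd i)) (fun e => Equiv.addRight (sg (i, e)))
  let ww : W → ℕ := fun e => ∏ p : ↥PP, (p : ℕ) ^ (e p).val
  have hprime : ∀ p ∈ PP, p.Prime ∧ ∃ i, p ∣ s i := by
    intro p hp
    rw [hPP, mem_biUnion] at hp
    obtain ⟨i, -, hp⟩ := hp
    exact ⟨Nat.prime_of_mem_primeFactors hp, i, Nat.dvd_of_mem_primeFactors hp⟩
  have hww : ∀ e, 1 ≤ ww e := fun e => Nat.one_le_iff_ne_zero.2 (Finset.prod_ne_zero_iff.2 fun p _ => pow_ne_zero _ (hprime p.1 p.2).1.ne_zero)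
  -- factorization of the coefficients
  have hfac : ∀ n : ℕ, n ≠ 0 → n.primeFactors ⊆ PP → n = ∏ p : ↥PP, (p : ℕ) ^ (n.factorization p) := by
    intro n hn hsub
    have h1 := Nat.prod_factorization_pow_eq_self hn
    rw [Finsupp.prod_of_support_subset _ (s := PP) (by rw [Nat.support_factorization]; exact hsub) _ (fun i _ => pow_zero i)] at h1
    rw [← Finset.prod_coe_sort] at h1
    exact h1.symm
  have hmul : ∀ i, ∀ e e' : W, (∀ p : ↥PP, (e' p).val = (e p).val + (s i).factorization p) → ww e' = s i * ww e := by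
    intro i e e' h
    have h2 : (s i).primeFactors ⊆ PP := by
      intro p hp
      rw [hPP, mem_biUnion]
      exact ⟨i, mem_univ _, hp⟩
    have e2 := hfac (s i) (by have := hs i; omega) h2
    calc ww e' = ∏ p : ↥PP, (p : ℕ) ^ ((e p).val + (s i).factorization p) := Finset.prod_congr rfl fun p _ => by rw [h p]
      _ = (∏ p : ↥PP, (p : ℕ) ^ ((s i).factorization p)) * ∏ p : ↥PP, (p : ℕ) ^ (e p).val := by
          rw [← Finset.prod_mul_distrib]
          exact Finset.prod_congr rfl fun p _ => by rw [pow_add, mul_comm]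
      _ = s i * ww e := by rw [← e2]
  -- the modulus
  set P : ℕ := ∏ i, ∏ e : W, s i * ww e with hP
  have hPd : ∀ i, ∀ e : W, s i * ww e ∣ P := fun i e =>
    (Finset.dvd_prod_of_mem (fun e : W => s i * ww e) (mem_univ e)).trans (Finset.dvd_prod_of_mem (fun i : ι => ∏ e : W, s i * ww e) (mem_univ i))
  have hP1 : 1 ≤ P := Nat.one_le_iff_ne_zero.2 (Finset.prod_ne_zero_iff.2 fun i _ => Finset.prod_ne_zero_iff.2 fun e _ =>
    mul_ne_zero (by have := hs i; omega) (by have := hww e; omega))
  -- the bad set for one index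
  have hbad : ∀ i : ι, (#{γ : T | ¬ ((∀ p : ↥PP, (γ.1 p).val + (s i).factorization p < N) ∧ γ.2 (i, γ.1) ≠ -1)} : ℝ) ≤ η * Fintype.card T := by
    intro i
    have hMr : s i ≤ M := Finset.single_le_sum (f := fun i : ι => s i) (fun _ _ => Nat.zero_le _) (mem_univ i)
    have hb := hs i
    let S : ↥PP → Finset (ZMod N) := fun p => {x : ZMod N | N ≤ x.val + (s i).factorization p}
    have hS : ∀ p, #(S p) ≤ M := by
      intro p
      have h2 : (s i).factorization p < s i := Nat.factorization_lt _ (by omega)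
      calc #(S p) ≤ (s i).factorization p := IDG_large _ _
        _ ≤ M := by omega
    let A : ↥PP → Finset T := fun p => {γ : T | γ.1 p ∈ S p}
    let B : Finset T := {γ : T | γ.2 (i, γ.1) ∈ ({-1} : Finset (ZMod N))}
    have hsub : ({γ : T | ¬ ((∀ p : ↥PP, (γ.1 p).val + (s i).factorization p < N) ∧ γ.2 (i, γ.1) ≠ -1)} : Finset T) ⊆ (univ.biUnion A) ∪ B := by
      intro γ hγ
      rw [mem_filter] at hγ
      rw [mem_union, mem_biUnion]
      by_cases h2 : γ.2 (i, γ.1) = -1
      · right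
        exact mem_filter.2 ⟨mem_univ _, mem_singleton.2 h2⟩
      · left
        have h3 : ¬ ∀ p : ↥PP, (γ.1 p).val + (s i).factorization p < N := fun h => hγ.2 ⟨h, h2⟩
        rw [not_forall] at h3
        obtain ⟨p, hp⟩ := h3
        refine ⟨p, mem_univ _, mem_filter.2 ⟨mem_univ _, ?_⟩⟩
        rw [mem_filter]
        rw [not_lt] at hp
        exact ⟨mem_univ _, hp⟩
    have hA : ∀ p, #(A p) * N ≤ M * Fintype.card T := by
      intro p
      have h1 : A p = ({e : W | e p ∈ S p} : Finset W) ×ˢ (univ : Finset K) := by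
        ext γ
        constructor
        · intro h
          exact mem_product.2 ⟨mem_filter.2 ⟨mem_univ _, (mem_filter.1 h).2⟩, mem_univ _⟩
        · intro h
          exact mem_filter.2 ⟨mem_univ _, (mem_filter.1 (mem_product.1 h).1).2⟩
      have h2 := IDG_cnt (↥PP) N p (S p)
      rw [h1, card_product, card_univ]
      calc #({e : W | e p ∈ S p} : Finset W) * Fintype.card K * N = #({e : W | e p ∈ S p} : Finset W) * N * Fintype.card K := by ring
        _ = #(S p) * Fintype.card W * Fintype.card K := by rw [h2]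
        _ ≤ M * Fintype.card W * Fintype.card K := by gcongr; exact hS p
        _ = M * Fintype.card T := by rw [show Fintype.card T = Fintype.card W * Fintype.card K from Fintype.card_prod W K]; ring
    have hB : #B * N = Fintype.card T := by
      have h1 : #B = ∑ e : W, #{κ : K | κ (i, e) ∈ ({-1} : Finset (ZMod N))} := by
        rw [card_filter, Fintype.sum_prod_type]
        exact Finset.sum_congr rfl fun e _ => by rw [card_filter]
      rw [h1, Finset.sum_mul]
      have h2 : ∀ e : W, #{κ : K | κ (i, e) ∈ ({-1} : Finset (ZMod N))} * N = Fintype.card K := by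
        intro e
        have h3 := IDG_cnt (ι × W) N (i, e) {-1}
        rw [card_singleton, one_mul] at h3
        exact h3
      rw [Finset.sum_congr rfl fun e _ => h2 e, Finset.sum_const, card_univ, smul_eq_mul]
      exact (Fintype.card_prod W K).symm
    have hall : #({γ : T | ¬ ((∀ p : ↥PP, (γ.1 p).val + (s i).factorization p < N) ∧ γ.2 (i, γ.1) ≠ -1)} : Finset T) * N ≤ (#PP * M + 1) * Fintype.card T := by
      calc _ ≤ #((univ.biUnion A) ∪ B) * N := Nat.mul_le_mul_right _ (card_le_card hsub)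
        _ ≤ (∑ p, #(A p) + #B) * N := Nat.mul_le_mul_right _ ((card_union_le _ _).trans (add_le_add card_biUnion_le le_rfl))
        _ = ∑ p, #(A p) * N + #B * N := by rw [add_mul, Finset.sum_mul]
        _ ≤ ∑ _p : ↥PP, M * Fintype.card T + Fintype.card T := add_le_add (Finset.sum_le_sum fun p _ => hA p) hB.le
        _ = (#PP * M + 1) * Fintype.card T := by
          rw [Finset.sum_const, card_univ, Fintype.card_coe, smul_eq_mul]
          ring
    have hNpos : (0 : ℝ) < N := by
      have : (0 : ℕ) < N := by omega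
      exact_mod_cast this
    have hall' : (#({γ : T | ¬ ((∀ p : ↥PP, (γ.1 p).val + (s i).factorization p < N) ∧ γ.2 (i, γ.1) ≠ -1)} : Finset T) : ℝ) * N ≤ ((#PP * M + 1 : ℕ) : ℝ) * Fintype.card T := by
      exact_mod_cast hall
    have hNη : ((#PP * M + 1 : ℕ) : ℝ) ≤ η * N := by
      rw [div_lt_iff₀ hη] at hN0
      have : (N : ℝ) = N0 + 2 := by rw [hN]; push_cast; ring
      rw [this]
      nlinarith
    have hT0 : (0 : ℝ) ≤ Fintype.card T := Nat.cast_nonneg _
    by_contra hcon
    rw [not_le] at hcon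
    have h5 : η * Fintype.card T * N < ((#PP * M + 1 : ℕ) : ℝ) * Fintype.card T := lt_of_lt_of_le (mul_lt_mul_of_pos_right hcon hNpos) hall'
    have h6 : ((#PP * M + 1 : ℕ) : ℝ) * Fintype.card T ≤ η * N * Fintype.card T := mul_le_mul_of_nonneg_right hNη hT0
    nlinarith
  -- the values of the shifted exponents
  have hval : ∀ (i : ι) (e : W) (p : ↥PP), (e p).val + (s i).factorization p < N → ((e + dd i) p).val = (e p).val + (s i).factorization p := by
    intro i e p h2
    have h3 : (e + dd i) p = (((e p).val + (s i).factorization p : ℕ) : ZMod N) := by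
      rw [Nat.cast_add, ZMod.natCast_zmod_val]
      rfl
    rw [h3, ZMod.val_natCast_of_lt h2]
  have hval1 : ∀ x : ZMod N, x ≠ -1 → (x + 1).val = x.val + 1 := by
    intro x hx
    have hx1 := ZMod.val_lt x
    have h1 : x.val + 1 < N := by
      by_contra hcon
      have h2 : x.val + 1 = N := by omega
      apply hx
      have h3 : ((x.val + 1 : ℕ) : ZMod N) = 0 := by rw [h2]; exact ZMod.natCast_self N
      rw [Nat.cast_add, ZMod.natCast_zmod_val, Nat.cast_one] at h3
      exact eq_neg_of_add_eq_zero_left h3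
    have h4 : x + 1 = ((x.val + 1 : ℕ) : ZMod N) := by rw [Nat.cast_add, ZMod.natCast_zmod_val, Nat.cast_one]
    rw [h4, ZMod.val_natCast_of_lt h1]
  let EQ := Fintype.equivFin T
  refine ⟨Fintype.card T, fun γ => ww (EQ.symm γ).1, fun i => (EQ.symm.trans (gg i)).trans EQ, P, Fintype.card_pos, hP1, fun γ => hww _, ?_, ?_⟩
  · intro γ p hp hd
    have h1 : ∃ q ∈ (univ : Finset ↥PP), p ∣ (q : ℕ) ^ ((EQ.symm γ).1 q).val := (hp.prime.dvd_finsetProd_iff _).1 hd
    obtain ⟨q, -, hq⟩ := h1
    have h2 : p ∣ (q : ℕ) := hp.dvd_of_dvd_pow hq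
    have h3 : p = q := (Nat.prime_dvd_prime_iff_eq hp (hprime q.1 q.2).1).1 h2
    rw [h3]
    exact (hprime q.1 q.2).2
  · intro V Q hV
    have hu : ∀ sv : ι × W, ∃ u : ℤ, ((s sv.1 : ℕ) : ℤ) * ((ww sv.2 : ℕ) : ℤ) * u = V sv.1 ∧ Q ∣ u := by
      intro sv
      obtain ⟨t, ht⟩ := hV sv.1
      obtain ⟨m, hm⟩ := hPd sv.1 sv.2
      refine ⟨Q * (m * t), ?_, Dvd.intro _ rfl⟩
      rw [ht, hm]
      push_cast
      ring
    choose u hu1 hu2 using hu
    let oo : T → ℤ := fun γ => ((ww γ.1 : ℕ) : ℤ) * ∑ sv : ι × W, (((γ.2 sv).val : ℕ) : ℤ) * u sv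
    refine ⟨fun γ => oo (EQ.symm γ), fun γ => Dvd.dvd.mul_left (Finset.dvd_sum fun sv _ => (hu2 sv).mul_left _) _, ?_⟩
    intro i
    refine le_trans ?_ (hbad i)
    have hcard : (#{γ : Fin (Fintype.card T) | ¬ (ww (EQ.symm ((EQ.symm.trans (gg i)).trans EQ γ)).1 = s i * ww (EQ.symm γ).1 ∧
        oo (EQ.symm ((EQ.symm.trans (gg i)).trans EQ γ)) = s i * oo (EQ.symm γ) + V i)} : ℕ) ≤
      #{γ : T | ¬ ((∀ p : ↥PP, (γ.1 p).val + (s i).factorization p < N) ∧ γ.2 (i, γ.1) ≠ -1)} := by
      refine Finset.card_le_card_of_injOn (fun γ => EQ.symm γ) ?_ EQ.symm.injective.injOn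
      intro γ hγ
      rw [mem_coe, mem_filter] at hγ ⊢
      refine ⟨mem_univ _, fun hgood => hγ.2 ?_⟩
      obtain ⟨hg1, hg2⟩ := hgood
      set x : T := EQ.symm γ with hx
      have e0 : (EQ.symm.trans (gg i)).trans EQ γ = EQ (gg i x) := by
        rw [Equiv.trans_apply, Equiv.trans_apply, ← hx]
      have e1 : gg i x = (x.1 + dd i, x.2 + sg (i, x.1)) := rfl
      rw [e0, Equiv.symm_apply_apply, e1]
      have hw : ww (x.1 + dd i) = s i * ww x.1 := hmul i _ _ fun p => hval i x.1 p (hg1 p)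
      refine ⟨hw, ?_⟩
      have hs' : ∀ sv : ι × W, ((((x.2 + sg (i, x.1) : K) sv).val : ℕ) : ℤ) = (((x.2 sv).val : ℕ) : ℤ) + if sv = (i, x.1) then 1 else 0 := by
        intro sv
        by_cases h : sv = (i, x.1)
        · rw [if_pos h, h]
          have h5 : (x.2 + sg (i, x.1) : K) (i, x.1) = x.2 (i, x.1) + 1 := by
            change x.2 (i, x.1) + (Pi.single (i, x.1) (1 : ZMod N) : K) (i, x.1) = _
            rw [Pi.single_eq_same]
          rw [h5, hval1 _ hg2]
          push_cast
          ring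
        · have h5 : (x.2 + sg (i, x.1) : K) sv = x.2 sv := by
            change x.2 sv + (Pi.single (i, x.1) (1 : ZMod N) : K) sv = _
            rw [Pi.single_eq_of_ne h, add_zero]
          rw [if_neg h, h5, add_zero]
      change ((ww (x.1 + dd i) : ℕ) : ℤ) * ∑ sv : ι × W, ((((x.2 + sg (i, x.1) : K) sv).val : ℕ) : ℤ) * u sv =
        s i * (((ww x.1 : ℕ) : ℤ) * ∑ sv : ι × W, (((x.2 sv).val : ℕ) : ℤ) * u sv) + V i
      have hsum : ∑ sv : ι × W, ((((x.2 + sg (i, x.1) : K) sv).val : ℕ) : ℤ) * u sv =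
          (∑ sv : ι × W, (((x.2 sv).val : ℕ) : ℤ) * u sv) + u (i, x.1) := by
        have h1 : ∀ sv : ι × W, ((((x.2 + sg (i, x.1) : K) sv).val : ℕ) : ℤ) * u sv = (((x.2 sv).val : ℕ) : ℤ) * u sv + if sv = (i, x.1) then u sv else 0 := by
          intro sv
          rw [hs' sv]
          by_cases h : sv = (i, x.1)
          · rw [if_pos h, if_pos h]
            ring
          · rw [if_neg h, if_neg h]
            ring
        rw [Finset.sum_congr rfl fun sv _ => h1 sv, Finset.sum_add_distrib, Finset.sum_ite_eq' univ (i, x.1) u, if_pos (mem_univ _)]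
      rw [hsum]
      have hwz : ((ww (x.1 + dd i) : ℕ) : ℤ) = (s i : ℤ) * ((ww x.1 : ℕ) : ℤ) := by exact_mod_cast hw
      have hur : ((s i : ℕ) : ℤ) * ((ww x.1 : ℕ) : ℤ) * u (i, x.1) = V i := hu1 (i, x.1)
      rw [← hur, hwz]
      ring
    exact_mod_cast hcard

end Pool.Agent.FP
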